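import Pool.Agent.H36.NB.STE
import Pool.Agent.H48.NB.DIF

/-!
RWK: the stopped walk, relative version: the error is relative to the mean of a function `φ` which
dominates the test function (MP_0f8dca_lc).
-/

set_option autoImplicit false

namespace Pool.Agent.H78.EXG

open Finset Pool.Agent.H6.NB Pool.Agent.H48.NB

theorem mle_zero {V : Type} [Fintype V] [DecidableEq V] (F : (V → Bool) → ℝ) :
    mle F (fun _ => 0) = (∑ y, F y) / 2 ^ Fintype.card V := by
  unfold mle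
  rw [Finset.sum_div]
  refine Finset.sum_congr rfl fun y _ => ?_
  have h : ∏ v : V, (1 + sg (y v) * (0 : ℝ)) / 2 = 1 / 2 ^ Fintype.card V := by
    simp [Finset.prod_const, Finset.card_univ]
  rw [h]
  ring

theorem mle_nonneg {V : Type} [Fintype V] [DecidableEq V] (F : (V → Bool) → ℝ) (hF : ∀ y, 0 ≤ F y)
    (W : V → ℝ) (hW : ∀ v, |W v| ≤ 1) : 0 ≤ mle F W := by
  unfold mle
  refine Finset.sum_nonneg fun y _ => mul_nonneg (Finset.prod_nonneg fun v _ => ?_) (hF y)
  have h1 := abs_le.1 (hW v)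
  have : 0 ≤ 1 + sg (y v) * W v := by
    unfold sg
    split_ifs <;> linarith
  positivity

theorem hat_le {V : Type} [Fintype V] [DecidableEq V] (F φ : (V → Bool) → ℝ)
    (hF : ∀ y, |F y| ≤ φ y) (S : Finset V) : |hat F S| ≤ mle φ fun _ => 0 := by
  rw [mle_zero]
  unfold hat
  rw [abs_div, abs_of_pos (by positivity : (0 : ℝ) < 2 ^ Fintype.card V)]
  refine div_le_div_of_nonneg_right ?_ (by positivity)
  refine (Finset.abs_sum_le_sum_abs _ _).trans (Finset.sum_le_sum fun y _ => ?_)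
  rw [abs_mul, Finset.abs_prod, Finset.prod_eq_one fun u _ => Pool.Agent.H36.NB.STE.abs_sg _, mul_one]
  exact hF y

theorem step (h1 : T_FOU) (h3 : T_DIR) (q : ℕ) (F φ : (VV q → Bool) → ℝ) (Λ δ : ℝ)
    (hL : L12 F ≤ Λ) (hF : ∀ y, |F y| ≤ φ y) (hδ : 0 ≤ δ)
    (hx : 4 * δ * (2 ^ q * √(2 ^ q)) ≤ 1) :
    |(∑ r : (Fin q → Bool) → Bool, mle F (fun v => 2 * (δ * dir q r v))) / 2 ^ 2 ^ q -
        mle F (fun _ => 2 * 0)| ≤
      4 * δ ^ 2 * Λ / √(2 ^ q) + (4 * δ * (2 ^ q * √(2 ^ q))) ^ 3 * mle φ fun _ => 0 := by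
  obtain ⟨hd1, hd2, hd3, -, -⟩ := h3 q
  have hM : (0 : ℝ) < 2 ^ q := by positivity
  have hs : (0 : ℝ) < √(2 ^ q) := Real.sqrt_pos.2 hM
  have hN : (0 : ℝ) < 2 ^ 2 ^ q := by positivity
  have hm0 : 0 ≤ mle φ fun _ => 0 :=
    mle_nonneg φ (fun y => (abs_nonneg _).trans (hF y)) _ fun v => by simp
  set m : ℝ := mle φ fun _ => 0 with hmdef
  set s : ℝ := √(2 ^ q) with hsdef
  set y : ℝ := 2 * δ * s with hydef
  have hy : 0 ≤ y := by positivity
  set a : Finset (VV q) → ℝ := fun S =>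
    (∑ r : (Fin q → Bool) → Bool, ∏ u ∈ S, (2 * (δ * dir q r u))) / 2 ^ 2 ^ q -
      ∏ u ∈ S, (2 * (0 : ℝ)) with hadef
  have hD : (∑ r : (Fin q → Bool) → Bool, mle F (fun v => 2 * (δ * dir q r v))) / 2 ^ 2 ^ q -
        mle F (fun _ => 2 * 0) = ∑ S : Finset (VV q), hat F S * a S := by
    simp only [h1 (VV q) F]
    rw [Finset.sum_comm, Finset.sum_div, ← Finset.sum_sub_distrib]
    refine Finset.sum_congr rfl fun S _ => ?_
    rw [← Finset.mul_sum, hadef]
    ring
  have hcard : (Fintype.card ((Fin q → Bool) → Bool) : ℝ) = 2 ^ 2 ^ q := by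
    simp [Fintype.card_bool]
  -- the bound for the large sets
  have hbig : ∀ S : Finset (VV q),
      |(∑ r : (Fin q → Bool) → Bool, ∏ u ∈ S, (2 * (δ * dir q r u))) / 2 ^ 2 ^ q| ≤ y ^ S.card := by
    intro S
    rw [abs_div, abs_of_pos hN, div_le_iff₀ hN]
    refine (Finset.abs_sum_le_sum_abs _ _).trans ?_
    have : ∀ r : (Fin q → Bool) → Bool, |∏ u ∈ S, (2 * (δ * dir q r u))| ≤ y ^ S.card := by
      intro r
      rw [Finset.abs_prod, ← Finset.prod_const]
      refine Finset.prod_le_prod (fun u _ => abs_nonneg _) fun u _ => ?_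
      rw [abs_mul, abs_mul, abs_of_pos (by norm_num : (0 : ℝ) < 2), abs_of_nonneg hδ, hydef]
      nlinarith [hd1 r u, abs_nonneg (dir q r u)]
    refine (Finset.sum_le_sum fun r _ => this r).trans ?_
    rw [Finset.sum_const, Finset.card_univ, nsmul_eq_mul, hcard, mul_comm]
  have hterm : ∀ S : Finset (VV q), |hat F S * a S| ≤
      (if S.card = 2 then |hat F S| * (4 * δ ^ 2 / s) else 0) +
        m * (if 3 ≤ S.card then y ^ S.card else 0) := by
    intro S
    rw [abs_mul]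
    have hh := hat_le F φ hF S
    rw [← hmdef] at hh
    rcases Nat.lt_or_ge S.card 3 with hc | hc
    · rw [if_neg (by omega : ¬ 3 ≤ S.card), mul_zero, add_zero]
      have hc' : S.card = 0 ∨ S.card = 1 ∨ S.card = 2 := by omega
      rcases hc' with hc' | hc' | hc'
      · rw [Finset.card_eq_zero] at hc'
        subst hc'
        have : a ∅ = 0 := by
          rw [hadef]
          simp only [Finset.prod_empty, Finset.sum_const, Finset.card_univ, nsmul_eq_mul, mul_one]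
          rw [hcard, div_self hN.ne', sub_self]
        rw [this]
        simp
      · obtain ⟨u, rfl⟩ := Finset.card_eq_one.1 hc'
        have : a {u} = 0 := by
          rw [hadef]
          simp only [Finset.prod_singleton]
          rw [← Finset.mul_sum, ← Finset.mul_sum, hd2]
          simp
        rw [this]
        simp
      · rw [if_pos hc']
        refine mul_le_mul_of_nonneg_left ?_ (abs_nonneg _)
        obtain ⟨u, v, huv, rfl⟩ := Finset.card_eq_two.1 hc'
        rw [hadef]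
        simp only [Finset.prod_pair huv]
        have h5 : ∀ r : (Fin q → Bool) → Bool, 2 * (δ * dir q r u) * (2 * (δ * dir q r v)) =
            4 * δ ^ 2 * (dir q r u * dir q r v) := by
          intro r; ring
        rw [Finset.sum_congr rfl fun r _ => h5 r, ← Finset.mul_sum]
        have h6 := hd3 u v huv
        rw [mul_zero, mul_zero, sub_zero, abs_div, abs_of_pos hN, abs_mul,
          abs_of_nonneg (by positivity : (0 : ℝ) ≤ 4 * δ ^ 2), div_le_iff₀ hN]
        calc 4 * δ ^ 2 * |∑ r, dir q r u * dir q r v| ≤ 4 * δ ^ 2 * (2 ^ 2 ^ q / s) :=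
              mul_le_mul_of_nonneg_left h6 (by positivity)
          _ = 4 * δ ^ 2 / s * 2 ^ 2 ^ q := by ring
    · rw [if_neg (by omega : ¬ S.card = 2), zero_add, if_pos hc]
      have h7 : a S = (∑ r : (Fin q → Bool) → Bool, ∏ u ∈ S, (2 * (δ * dir q r u))) / 2 ^ 2 ^ q := by
        rw [hadef]
        simp only [mul_zero]
        rw [Finset.prod_const, zero_pow (by omega), sub_zero]
      rw [h7]
      exact mul_le_mul hh (hbig S) (abs_nonneg _) hm0
  rw [hD]
  refine (Finset.abs_sum_le_sum_abs _ _).trans ((Finset.sum_le_sum fun S _ => hterm S).trans ?_)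
  rw [Finset.sum_add_distrib]
  refine add_le_add ?_ ?_
  · rw [← Finset.sum_filter, ← Finset.sum_mul]
    have h8 : (Finset.univ.filter fun S : Finset (VV q) => S.card = 2) =
        Finset.powersetCard 2 (Finset.univ : Finset (VV q)) := by
      ext S
      simp [Finset.mem_powersetCard]
    rw [h8]
    calc (∑ S ∈ Finset.powersetCard 2 (Finset.univ : Finset (VV q)), |hat F S|) * (4 * δ ^ 2 / s)
        ≤ Λ * (4 * δ ^ 2 / s) := mul_le_mul_of_nonneg_right hL (by positivity)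
      _ = _ := by ring
  · rw [← Finset.mul_sum, mul_comm]
    refine mul_le_mul_of_nonneg_right ?_ hm0
    have h9 := Finset.sum_powerset_apply_card (x := (Finset.univ : Finset (VV q)))
      (fun k => if 3 ≤ k then y ^ k else (0 : ℝ))
    rw [Finset.powerset_univ] at h9
    rw [h9]
    have h10 : (Finset.univ : Finset (VV q)).card = 2 * 2 ^ q := by
      rw [Finset.card_univ]
      simp
    rw [h10]
    have h11 : (((2 * 2 ^ q : ℕ) : ℝ)) * y = 4 * δ * (2 ^ q * s) := by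
      rw [hydef]
      push_cast
      ring
    have h12 := Pool.Agent.H36.NB.STE.tail_le (2 * 2 ^ q) y hy (by rw [h11]; exact hx)
    rw [h11] at h12
    exact h12

/-- One step of the walk, relative version. -/
theorem ste (h1 : T_FOU) (h2 : T_RST) (h3 : T_DIR) (q : ℕ) (F φ : (VV q → Bool) → ℝ) (K τ δ : ℝ)
    (W : VV q → ℝ) (hL : ∀ ρ, L12 (rst ρ F) ≤ K * mle (rst ρ φ) (fun _ => 0) + τ)
    (hF : ∀ y, |F y| ≤ φ y) (hW : ∀ v, |W v| ≤ 1 / 2) (hδ : 0 ≤ δ)
    (hx : 4 * δ * (2 ^ q * √(2 ^ q)) ≤ 1) :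
    |(∑ r : (Fin q → Bool) → Bool, mle F (fun v => W v + δ * dir q r v)) / 2 ^ 2 ^ q - mle F W| ≤
      (4 * δ ^ 2 * K / √(2 ^ q) + (4 * δ * (2 ^ q * √(2 ^ q))) ^ 3) * mle φ W +
        4 * δ ^ 2 * τ / √(2 ^ q) := by
  obtain ⟨c, hc0, hc1, hc⟩ := h2 (VV q) W hW
  have hN : (0 : ℝ) < 2 ^ 2 ^ q := by positivity
  have hW0 : ∀ G : (VV q → Bool) → ℝ, mle G W = ∑ ρ, c ρ * mle (rst ρ G) (fun _ => 2 * 0) := by
    intro G
    have := hc G (fun _ => 0)
    simpa using this
  have hE : (∑ r : (Fin q → Bool) → Bool, mle F (fun v => W v + δ * dir q r v)) / 2 ^ 2 ^ q - mle F W =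
      ∑ ρ, c ρ * ((∑ r : (Fin q → Bool) → Bool, mle (rst ρ F) (fun v => 2 * (δ * dir q r v))) / 2 ^ 2 ^ q -
        mle (rst ρ F) (fun _ => 2 * 0)) := by
    have h4 : ∀ r : (Fin q → Bool) → Bool, mle F (fun v => W v + δ * dir q r v) =
        ∑ ρ, c ρ * mle (rst ρ F) (fun v => 2 * (δ * dir q r v)) := fun r => hc F fun v => δ * dir q r v
    rw [Finset.sum_congr rfl fun r _ => h4 r, hW0, Finset.sum_comm, Finset.sum_div,
      ← Finset.sum_sub_distrib]
    refine Finset.sum_congr rfl fun ρ _ => ?_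
    rw [← Finset.mul_sum]
    ring
  rw [hE]
  refine (Finset.abs_sum_le_sum_abs _ _).trans ?_
  have h5 : ∀ ρ : VV q → Option Bool, |c ρ * ((∑ r : (Fin q → Bool) → Bool,
      mle (rst ρ F) (fun v => 2 * (δ * dir q r v))) / 2 ^ 2 ^ q - mle (rst ρ F) (fun _ => 2 * 0))| ≤
      (4 * δ ^ 2 * K / √(2 ^ q) + (4 * δ * (2 ^ q * √(2 ^ q))) ^ 3) *
        (c ρ * mle (rst ρ φ) (fun _ => 2 * 0)) + c ρ * (4 * δ ^ 2 * τ / √(2 ^ q)) := by
    intro ρ
    rw [abs_mul, abs_of_nonneg (hc0 ρ)]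
    have h6 := mul_le_mul_of_nonneg_left
      (step h1 h3 q (rst ρ F) (rst ρ φ) _ δ (hL ρ) (fun y => hF _) hδ hx) (hc0 ρ)
    refine h6.trans (le_of_eq ?_)
    rw [mul_zero]
    ring
  refine (Finset.sum_le_sum fun ρ _ => h5 ρ).trans ?_
  rw [Finset.sum_add_distrib, ← Finset.mul_sum, ← Finset.sum_mul, hc1, one_mul, ← hW0 φ]

theorem iter_lin (h2 : T_WLK) (q n : ℕ) (G : (VV q → ℝ) → ℝ) (a c : ℝ) (W : VV q → ℝ) :
    (AA q (dl q))^[n] (fun W => a * G W + c) W = a * (AA q (dl q))^[n] G W + c := by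
  have h := h2 q (dl q) (MUP.dl_nonneg q) (MUP.dl_mul_sqrt q)
  have h3 := h.2.2.1 n Bool (fun b => if b then a else c) (fun b => if b then G else fun _ => 1) W
  have e : (fun W : VV q → ℝ => a * G W + c) = fun W => ∑ b : Bool, (if b then a else c) *
      (if b then G else fun _ => 1) W := by
    funext W
    rw [Fintype.sum_bool]
    simp
  rw [e, h3, Fintype.sum_bool]
  simp only [if_true, Bool.false_eq_true, if_false]
  rw [h.2.2.2 n 1 W, mul_one]

/-- Gronwall along the stopped walk. -/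
theorem gron (h2 : T_WLK) (q : ℕ) (G H : (VV q → ℝ) → ℝ) (ε τ : ℝ) (hε : 0 ≤ ε)
    (hG : ∀ W, (∀ v, |W v| ≤ 1) → |AA q (dl q) G W - G W| ≤ ε * H W + τ)
    (hH : ∀ W, (∀ v, |W v| ≤ 1) → |AA q (dl q) H W - H W| ≤ ε * H W + τ) (T : ℕ) :
    |(AA q (dl q))^[T] G (fun _ => 0) - G (fun _ => 0)| ≤
      ((1 + ε) ^ T - 1) * H (fun _ => 0) + (∑ i ∈ range T, (1 + ε) ^ i) * τ := by
  have h := h2 q (dl q) (MUP.dl_nonneg q) (MUP.dl_mul_sqrt q)
  have h0 : ∀ v : VV q, |(fun _ => (0 : ℝ)) v| ≤ 1 := fun v => by simp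
  have hHt : ∀ t : ℕ, (AA q (dl q))^[t] H (fun _ => 0) ≤
      (1 + ε) ^ t * H (fun _ => 0) + (∑ i ∈ range t, (1 + ε) ^ i) * τ := by
    intro t
    induction t with
    | zero => simp
    | succ t ih =>
      have h3 := h.2.1 t (AA q (dl q) H) (fun W => (1 + ε) * H W + τ) (fun W hW => by
        have := (abs_le.1 (hH W hW)).2
        linarith) (fun _ => 0) h0
      rw [iter_lin h2] at h3
      rw [Function.iterate_succ_apply]
      refine h3.trans ?_
      have h4 := mul_le_mul_of_nonneg_left ih (by linarith : 0 ≤ 1 + ε)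
      rw [geom_sum_succ, pow_succ]
      linarith
  induction T with
  | zero => simp
  | succ T ih =>
    have h5 : |(AA q (dl q))^[T + 1] G (fun _ => 0) - (AA q (dl q))^[T] G (fun _ => 0)| ≤
        ε * (AA q (dl q))^[T] H (fun _ => 0) + τ := by
      rw [Function.iterate_succ_apply, abs_le]
      have e1 : (AA q (dl q))^[T] (fun W => 1 * G W + 0) (fun _ => 0) =
          (AA q (dl q))^[T] G (fun _ => 0) := by
        rw [iter_lin h2]
        ring
      have e2 : ∀ a : ℝ, (AA q (dl q))^[T] (fun W => ∑ b : Bool, (if b then (1 : ℝ) else a) *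
          (if b then G else fun W => ε * H W + τ) W) (fun _ => 0) =
          (AA q (dl q))^[T] G (fun _ => 0) + a * (ε * (AA q (dl q))^[T] H (fun _ => 0) + τ) := by
        intro a
        rw [h.2.2.1 T Bool (fun b => if b then (1 : ℝ) else a)
          (fun b => if b then G else fun W => ε * H W + τ) (fun _ => 0), Fintype.sum_bool]
        simp only [if_true, Bool.false_eq_true, if_false]
        rw [iter_lin h2, one_mul]
      constructor
      · have h3 := h.2.1 T (fun W => ∑ b : Bool, (if b then (1 : ℝ) else -1) *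
          (if b then G else fun W => ε * H W + τ) W) (AA q (dl q) G) (fun W hW => by
            have := (abs_le.1 (hG W hW)).1
            rw [Fintype.sum_bool]
            simp only [if_true, Bool.false_eq_true, if_false]
            linarith) (fun _ => 0) h0
        rw [e2] at h3
        linarith
      · have h3 := h.2.1 T (AA q (dl q) G) (fun W => ∑ b : Bool, (if b then (1 : ℝ) else 1) *
          (if b then G else fun W => ε * H W + τ) W) (fun W hW => by
            have := (abs_le.1 (hG W hW)).2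
            rw [Fintype.sum_bool]
            simp only [if_true, Bool.false_eq_true, if_false]
            linarith) (fun _ => 0) h0
        rw [e2] at h3
        linarith
    have h6 := abs_sub_le ((AA q (dl q))^[T + 1] G (fun _ => 0)) ((AA q (dl q))^[T] G (fun _ => 0))
      (G (fun _ => 0))
    have h7 := mul_le_mul_of_nonneg_left (hHt T) hε
    rw [geom_sum_succ, pow_succ]
    linarith

/-- RWK: the forrelated and the uniform distribution, relative version. -/
theorem rwk (h1 : T_FOU) (h2 : T_RST) (h3 : T_DIR) (h4 : T_WLK) (h5 : T_MUP) (q : ℕ)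
    (F φ : (VV q → Bool) → ℝ) (K τ : ℝ) (hq : 10 ≤ q) (hK : 0 ≤ K) (hτ : 0 ≤ τ)
    (hF : ∀ y, |F y| ≤ φ y)
    (hLF : ∀ ρ, L12 (rst ρ F) ≤ K * mle (rst ρ φ) (fun _ => 0) + τ)
    (hLφ : ∀ ρ, L12 (rst ρ φ) ≤ K * mle (rst ρ φ) (fun _ => 0) + τ)
    (hKq : K + 1 ≤ √(2 ^ q)) :
    |∑ p, (mu true q p - mu false q p) * F p| ≤
      2 * (K + 1) / √(2 ^ q) * mle φ (fun _ => 0) + τ := by
  have hs2 : √(2 ^ q) ^ 2 = (2 : ℝ) ^ q := Real.sq_sqrt (by positivity)
  have hs0 : 0 ≤ √((2 : ℝ) ^ q) := Real.sqrt_nonneg _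
  have hq2 : (1024 : ℝ) ≤ 2 ^ q := by
    calc (1024 : ℝ) = 2 ^ 10 := by norm_num
      _ ≤ 2 ^ q := pow_le_pow_right₀ (by norm_num) hq
  have hs32 : 32 ≤ √((2 : ℝ) ^ q) := by nlinarith
  have hspos : 0 < √((2 : ℝ) ^ q) := by linarith
  have he0 : 0 ≤ √(eps2 q) := Real.sqrt_nonneg _
  have he2 : √(eps2 q) ^ 2 = eps2 q := Real.sq_sqrt (MUP.eps2_nonneg q)
  have hel := MUP.eps2_le q
  have he1 : √(eps2 q) ≤ 1 := by nlinarith
  have hN : (Tn q : ℝ) = √(2 ^ q) ^ 24 := by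
    calc (Tn q : ℝ) = (2 ^ q) ^ 12 := by
          unfold Tn
          push_cast
          rw [← pow_mul, mul_comm]
      _ = (√(2 ^ q) ^ 2) ^ 12 := by rw [hs2]
      _ = √(2 ^ q) ^ 24 := by ring
  have hd : dl q = √(eps2 q) / √(2 ^ q) ^ 12 := by
    unfold dl
    rw [hN, Real.sqrt_div' _ (by positivity)]
    rw [show √((2 : ℝ) ^ q) ^ 24 = (√(2 ^ q) ^ 12) ^ 2 by ring]
    rw [Real.sqrt_sq (by positivity)]
  have hx : 4 * dl q * (2 ^ q * √(2 ^ q)) = 4 * √(eps2 q) / √(2 ^ q) ^ 9 := by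
    rw [hd, ← hs2]
    field_simp
    rw [Real.sqrt_sq hs0]
  have hx1 : 4 * dl q * (2 ^ q * √(2 ^ q)) ≤ 1 := by
    rw [hx, div_le_one (by positivity)]
    have h9 : (32 : ℝ) ^ 1 ≤ √(2 ^ q) ^ 9 := by
      calc (32 : ℝ) ^ 1 ≤ √(2 ^ q) ^ 1 := pow_le_pow_left₀ (by norm_num) hs32 1
        _ ≤ √(2 ^ q) ^ 9 := pow_le_pow_right₀ (by linarith) (by norm_num)
    linarith
  have hφ0 : ∀ y, 0 ≤ φ y := fun y => (abs_nonneg _).trans (hF y)
  have hφφ : ∀ y, |φ y| ≤ φ y := fun y => le_of_eq (abs_of_nonneg (hφ0 y))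
  set ε : ℝ := 4 * dl q ^ 2 * K / √(2 ^ q) + (4 * dl q * (2 ^ q * √(2 ^ q))) ^ 3 with hεdef
  set τ' : ℝ := 4 * dl q ^ 2 * τ / √(2 ^ q) with hτ'def
  have hdl := MUP.dl_nonneg q
  have hε : 0 ≤ ε := by positivity
  have hτ' : 0 ≤ τ' := by positivity
  have hAA : ∀ G : (VV q → Bool) → ℝ, (∀ y, |G y| ≤ φ y) →
      (∀ ρ, L12 (rst ρ G) ≤ K * mle (rst ρ φ) (fun _ => 0) + τ) →
      ∀ W, (∀ v, |W v| ≤ 1) → |AA q (dl q) (mle G) W - mle G W| ≤ ε * mle φ W + τ' := by
    intro G hG hLG W hW1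
    by_cases hW : ∀ v, |W v| ≤ 1 / 2
    · rw [DIF.AA_of_le q (dl q) (mle G) W hW]
      exact ste h1 h2 h3 q G φ K τ (dl q) W hLG hG hW hdl hx1
    · rw [DIF.AA_of_not q (dl q) (mle G) W hW, sub_self, abs_zero]
      have := mle_nonneg φ hφ0 W hW1
      positivity
  have hgr := gron h4 q (mle F) (mle φ) ε τ' hε (hAA F hF hLF) (hAA φ hφφ hLφ) (Tn q)
  have hsum : ∑ p, (mu true q p - mu false q p) * F p =
      (AA q (dl q))^[Tn q] (mle F) (fun _ => 0) - mle F (fun _ => 0) := by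
    have e1 := (h5 true q).2.2 F
    have e2 := (h5 false q).2.2 F
    simp only [if_true, Bool.false_eq_true, if_false] at e1 e2
    rw [← e1, ← e2, ← Finset.sum_sub_distrib]
    exact Finset.sum_congr rfl (fun p _ => by ring)
  rw [hsum]
  refine hgr.trans ?_
  have hTε : (Tn q : ℝ) * ε ≤ (K + 1) / √(2 ^ q) := by
    rw [hεdef, hx, hd, hN]
    exact DIF.num _ _ K hs32 he0 he1 (by rw [he2]; exact hel) hK
  have hT1 : (Tn q : ℝ) * ε ≤ 1 := hTε.trans ((div_le_one hspos).2 hKq)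
  have hTε0 : 0 ≤ (Tn q : ℝ) * ε := by positivity
  have hexp : (1 + ε) ^ Tn q ≤ Real.exp (Tn q * ε) := by
    rw [Real.exp_nat_mul]
    exact pow_le_pow_left₀ (by linarith) (by linarith [Real.add_one_le_exp ε]) _
  have hexp2 : Real.exp (Tn q * ε) - 1 ≤ 2 * (Tn q * ε) := by
    have h6 := Real.abs_exp_sub_one_sub_id_le (x := Tn q * ε) (by rw [abs_of_nonneg hTε0]; exact hT1)
    have h7 := (abs_le.1 h6).2
    nlinarith
  have hpow : (1 + ε) ^ Tn q - 1 ≤ 2 * (K + 1) / √(2 ^ q) := by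
    have e1 : 2 * (K + 1) / √((2 : ℝ) ^ q) = 2 * ((K + 1) / √(2 ^ q)) := by ring
    rw [e1]
    linarith
  have hm0 : 0 ≤ mle φ fun _ => 0 := mle_nonneg φ hφ0 _ fun v => by simp
  refine add_le_add (mul_le_mul_of_nonneg_right hpow hm0) ?_
  have hgeo : ∑ i ∈ range (Tn q), (1 + ε) ^ i ≤ Tn q * 3 := by
    have h8 : ∀ i ∈ range (Tn q), (1 + ε) ^ i ≤ 3 := by
      intro i hi
      have h9 : (1 + ε) ^ i ≤ (1 + ε) ^ Tn q :=
        pow_le_pow_right₀ (by linarith) (Finset.mem_range.1 hi).le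
      linarith
    refine (Finset.sum_le_sum h8).trans ?_
    rw [Finset.sum_const, Finset.card_range, nsmul_eq_mul]
  refine (mul_le_mul_of_nonneg_right hgeo hτ').trans ?_
  have e3 : (Tn q : ℝ) * 3 * τ' = 12 * eps2 q * τ / √(2 ^ q) := by
    rw [hτ'def, hd, hN, div_pow, he2]
    field_simp
    ring
  rw [e3, div_le_iff₀ hspos]
  have h10 : 12 * eps2 q * τ ≤ 1 * τ := mul_le_mul_of_nonneg_right (by linarith) hτ
  nlinarith

end Pool.Agent.H78.EXG
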